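import Mathlib

/-!
Additive part of the proof that finite radical rings have large abelian sections.
-/

namespace Pool.Agent.MP_d12f76_al

section Additive

variable {M : Type*} [AddCommGroup M]

/-- `|N| = |N ∩ ker T| |T N|`. -/
theorem card_split (T : M →+ M) (N : AddSubgroup M) :
    Nat.card N = Nat.card (N ⊓ T.ker : AddSubgroup M) * Nat.card (N.map T) := by
  have h1 : Nat.card (N ⊓ T.ker : AddSubgroup M) * (N ⊓ T.ker).relIndex N = Nat.card N := by
    rw [← AddSubgroup.relIndex_bot_left, ← AddSubgroup.relIndex_bot_left N]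
    exact AddSubgroup.relIndex_mul_relIndex _ _ _ bot_le inf_le_left
  rw [AddSubgroup.inf_relIndex_left, AddSubgroup.relIndex_ker] at h1
  exact h1.symm

/-- `|X ⊔ Y| |X ⊓ Y| = |X| |Y|`. -/
theorem card_sup_mul (X Y : AddSubgroup M) :
    Nat.card (X ⊔ Y : AddSubgroup M) * Nat.card (X ⊓ Y : AddSubgroup M) =
      Nat.card X * Nat.card Y := by
  have h1 : Nat.card (X ⊓ Y : AddSubgroup M) * (X ⊓ Y).relIndex X = Nat.card X := by
    rw [← AddSubgroup.relIndex_bot_left, ← AddSubgroup.relIndex_bot_left X]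
    exact AddSubgroup.relIndex_mul_relIndex _ _ _ bot_le inf_le_left
  have h2 : Nat.card Y * Y.relIndex (X ⊔ Y) = Nat.card (X ⊔ Y : AddSubgroup M) := by
    rw [← AddSubgroup.relIndex_bot_left, ← AddSubgroup.relIndex_bot_left (X ⊔ Y)]
    exact AddSubgroup.relIndex_mul_relIndex _ _ _ bot_le le_sup_right
  rw [AddSubgroup.inf_relIndex_left] at h1
  rw [AddSubgroup.relIndex_sup_right] at h2
  rw [← h1, ← h2]
  ring

variable [Finite M]

theorem card_le_of_le {X Y : AddSubgroup M} (h : X ≤ Y) : Nat.card X ≤ Nat.card Y :=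
  Nat.card_mono (Set.toFinite _) h

/-- The subgroup generated by all `T^q m`, `m ∈ N`, killed by `T^(q+1)`. -/
def tower (T : M →+ M) (N : AddSubgroup M) : AddSubgroup M :=
  AddSubgroup.closure {y | ∃ q : ℕ, ∃ m ∈ N, T^[q] m = y ∧ T^[q + 1] y = 0}

omit [Finite M] in
theorem iter_mem {T : M →+ M} {N : AddSubgroup M} (hT : ∀ x ∈ N, T x ∈ N) (q : ℕ) :
    ∀ x ∈ N, T^[q] x ∈ N := by
  induction q with
  | zero => intro x hx; exact hx
  | succ q ih => intro x hx; rw [Function.iterate_succ_apply]; exact ih _ (hT x hx)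

omit [Finite M] in
theorem tower_le {T : M →+ M} {N : AddSubgroup M} (hT : ∀ x ∈ N, T x ∈ N) : tower T N ≤ N := by
  refine (AddSubgroup.closure_le _).2 ?_
  rintro y ⟨q, m, hm, rfl, -⟩
  exact iter_mem hT q m hm

/-- `|N| ≤ |tower T N|^2`. -/
theorem card_le_tower (T : M →+ M) (k : ℕ) : ∀ N : AddSubgroup M, (∀ x ∈ N, T x ∈ N) →
    (∀ x ∈ N, T^[k] x = 0) → Nat.card N ≤ Nat.card (tower T N) ^ 2 := by
  induction k with
  | zero =>
    intro N hT h0
    have : N = ⊥ := (AddSubgroup.eq_bot_iff_forall _).2 (fun x hx => h0 x hx)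
    subst this
    have h1 : 0 < Nat.card (tower T (⊥ : AddSubgroup M)) := Nat.card_pos
    have h2 : Nat.card (⊥ : AddSubgroup M) = 1 := by simp
    rw [h2]
    exact Nat.one_le_pow _ _ h1
  | succ k ih =>
    intro N hT h0
    set N₁ := N.map T with hN₁
    set N₂ := N₁.map T with hN₂
    have hT₂ : ∀ x ∈ N₂, T x ∈ N₂ := by
      rintro x ⟨y, ⟨z, hz, rfl⟩, rfl⟩
      exact ⟨T (T z), ⟨T z, hT z hz, rfl⟩, rfl⟩
    have h02 : ∀ x ∈ N₂, T^[k] x = 0 := by
      rintro x ⟨y, ⟨z, hz, rfl⟩, rfl⟩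
      rw [← Function.iterate_succ_apply (f := T), ← Function.iterate_succ_apply (f := T),
        Function.iterate_succ_apply' (f := T), h0 z hz, map_zero]
    have key := ih N₂ hT₂ h02
    -- kernels
    have hK0 : (N ⊓ T.ker : AddSubgroup M) ≤ tower T N ⊓ T.ker := by
      rintro x ⟨hx, hx'⟩
      exact ⟨AddSubgroup.subset_closure ⟨0, x, hx, rfl, hx'⟩, hx'⟩
    have hK1 : (N₁ ⊓ T.ker : AddSubgroup M) ≤ N ⊓ T.ker := by
      rintro x ⟨⟨z, hz, rfl⟩, hx'⟩
      exact ⟨hT z hz, hx'⟩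
    have hY : tower T N₂ ≤ (tower T N).map T := by
      refine (AddSubgroup.closure_le _).2 ?_
      rintro y ⟨q, m, ⟨m₁, ⟨m₀, hm₀, rfl⟩, rfl⟩, rfl, hy⟩
      refine ⟨T^[q + 1] m₀, AddSubgroup.subset_closure ⟨q + 1, m₀, hm₀, rfl, ?_⟩, ?_⟩
      · have e1 : T^[q + 1 + 1] (T^[q + 1] m₀) = T^[q + 1] (T^[q] (T (T m₀))) := by
          rw [← Function.iterate_add_apply, ← Function.iterate_succ_apply (f := T),
            ← Function.iterate_succ_apply (f := T), ← Function.iterate_add_apply]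
          have e2 : q + 1 + 1 + (q + 1) = q + 1 + q.succ.succ := by omega
          rw [e2]
        rw [e1, hy]
      · rw [← Function.iterate_succ_apply' (f := T), ← Function.iterate_succ_apply (f := T),
            ← Function.iterate_succ_apply (f := T)]
    have c0 := card_split T N
    have c1 := card_split T N₁
    have c2 := card_split T (tower T N)
    have d0 := card_le_of_le hK0
    have d1 := card_le_of_le hK1
    have d2 := card_le_of_le hY
    rw [← hN₁] at c0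
    rw [← hN₂] at c1
    calc Nat.card N = Nat.card (N ⊓ T.ker : AddSubgroup M) *
          (Nat.card (N₁ ⊓ T.ker : AddSubgroup M) * Nat.card N₂) := by rw [c0, c1]
      _ ≤ Nat.card (tower T N ⊓ T.ker : AddSubgroup M) *
          (Nat.card (tower T N ⊓ T.ker : AddSubgroup M) *
            Nat.card ((tower T N).map T) ^ 2) := by
          refine Nat.mul_le_mul d0 (Nat.mul_le_mul (d1.trans d0) (key.trans ?_))
          exact Nat.pow_le_pow_left d2 2
      _ = Nat.card (tower T N) ^ 2 := by rw [c2]; ring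

/-- The exchange lemma: if `f` moves `E` as far out of `F` as `g` and `f + g` do, then on the
part of `E` which `f` sends into `F` the map `g` is much smaller modulo `f E + F`. -/
theorem exchange (f g : M →+ M) (E F : AddSubgroup M) (S : ℕ)
    (hX : Nat.card (E.map f ⊔ F : AddSubgroup M) = S * Nat.card F)
    (hg : Nat.card (E.map g ⊔ F : AddSubgroup M) ≤ Nat.card (E.map f ⊔ F : AddSubgroup M))
    (hfg : Nat.card (E.map (f + g) ⊔ F : AddSubgroup M) ≤
      Nat.card (E.map f ⊔ F : AddSubgroup M)) :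
    Nat.card ((E ⊓ F.comap f).map g ⊔ (E.map f ⊔ F) : AddSubgroup M) ^ 2 ≤
      S * Nat.card (E.map f ⊔ F : AddSubgroup M) ^ 2 := by
  set X := E.map f ⊔ F with hXdef
  set Y := E.map g ⊔ F with hYdef
  set Z := E.map (f + g) ⊔ F with hZdef
  set T := (E ⊓ F.comap f).map g ⊔ F with hTdef
  have hTX : (E ⊓ F.comap f).map g ⊔ X = T ⊔ X := by
    rw [hTdef, sup_assoc]
    congr 1
    rw [hXdef, sup_comm F, sup_assoc, sup_idem]
  rw [hTX]
  have hTY : T ≤ Y := by
    refine sup_le ?_ le_sup_right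
    exact (AddSubgroup.map_mono inf_le_left).trans le_sup_left
  have hTZ : T ≤ Z := by
    refine sup_le ?_ le_sup_right
    rintro y ⟨x, ⟨hxE, hxF⟩, rfl⟩
    have h1 : (f + g) x ∈ Z := AddSubgroup.mem_sup_left ⟨x, hxE, rfl⟩
    have h2 : f x ∈ Z := AddSubgroup.mem_sup_right hxF
    have h3 : g x = (f + g) x - f x := by simp
    rw [h3]
    exact Z.sub_mem h1 h2
  have hXYZ : X ≤ Y ⊔ Z := by
    refine sup_le ?_ (le_sup_right.trans le_sup_left)
    rintro y ⟨x, hxE, rfl⟩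
    have h1 : (f + g) x ∈ Y ⊔ Z :=
      AddSubgroup.mem_sup_right (AddSubgroup.mem_sup_left ⟨x, hxE, rfl⟩)
    have h2 : g x ∈ Y ⊔ Z := AddSubgroup.mem_sup_left (AddSubgroup.mem_sup_left ⟨x, hxE, rfl⟩)
    have h3 : f x = (f + g) x - g x := by simp
    rw [h3]
    exact (Y ⊔ Z).sub_mem h1 h2
  have a1 : Nat.card (T ⊔ X : AddSubgroup M) * Nat.card T ≤ Nat.card X * Nat.card X :=
    calc Nat.card (T ⊔ X : AddSubgroup M) * Nat.card T
        ≤ Nat.card (Y ⊔ Z : AddSubgroup M) * Nat.card (Y ⊓ Z : AddSubgroup M) :=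
          Nat.mul_le_mul (card_le_of_le (sup_le (hTY.trans le_sup_left) hXYZ))
            (card_le_of_le (le_inf hTY hTZ))
      _ = Nat.card Y * Nat.card Z := card_sup_mul Y Z
      _ ≤ Nat.card X * Nat.card X := Nat.mul_le_mul hg hfg
  have a2 : Nat.card (T ⊔ X : AddSubgroup M) * Nat.card F ≤ Nat.card T * Nat.card X :=
    calc Nat.card (T ⊔ X : AddSubgroup M) * Nat.card F
        ≤ Nat.card (T ⊔ X : AddSubgroup M) * Nat.card (T ⊓ X : AddSubgroup M) :=
          Nat.mul_le_mul le_rfl (card_le_of_le (le_inf le_sup_right le_sup_right))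
      _ = Nat.card T * Nat.card X := card_sup_mul T X
  have p1 : 0 < Nat.card T := Nat.card_pos
  have p2 : 0 < Nat.card F := Nat.card_pos
  have p3 : 0 < Nat.card X := Nat.card_pos
  generalize Nat.card (T ⊔ X : AddSubgroup M) = u at *
  generalize Nat.card T = t at *
  generalize Nat.card X = x at *
  generalize Nat.card F = w at *
  have a3 : (u * t) * (u * w) ≤ (x * x) * (t * x) := Nat.mul_le_mul a1 a2
  have a4 : (t * w) * u ^ 2 ≤ (t * w) * (S * x ^ 2) := by
    calc (t * w) * u ^ 2 = (u * t) * (u * w) := by ring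
      _ ≤ (x * x) * (t * x) := a3
      _ = (t * x ^ 2) * x := by ring
      _ = (t * x ^ 2) * (S * w) := by rw [← hX]
      _ = (t * w) * (S * x ^ 2) := by ring
  exact Nat.le_of_mul_le_mul_left a4 (Nat.mul_pos p1 p2)

end Additive

section Ring

variable {A : Type*} [NonUnitalRing A]

/-- Left multiplication. -/
abbrev Lm (z : A) : A →+ A := AddMonoidHom.mulLeft z

/-- Right multiplication. -/
abbrev Rm (z : A) : A →+ A := AddMonoidHom.mulRight z

theorem mul_iter (z : A) (n : ℕ) : ∀ u w : A, u * (Lm z)^[n] w = (Rm z)^[n] u * w := by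
  induction n with
  | zero => intro u w; rfl
  | succ n ih =>
    intro u w
    rw [Function.iterate_succ_apply, ih, Function.iterate_succ_apply']
    simp [mul_assoc]

theorem iter_mul (z : A) (n : ℕ) : ∀ u w : A, (Lm z)^[n] (u * w) = (Lm z)^[n] u * w := by
  induction n with
  | zero => intro u w; rfl
  | succ n ih =>
    intro u w
    rw [Function.iterate_succ_apply', ih, Function.iterate_succ_apply']
    simp [mul_assoc]

variable [Finite A]

/-- Steps 2 and 3: all the images `z A` are small when all square-zero subgroups are. -/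
theorem card_image_le (z : A) (k : ℕ) (hL : ∀ x, (Lm z)^[k] x = 0) (hR : ∀ x, (Rm z)^[k] x = 0)
    (a : ℕ) (ha : ∀ U : AddSubgroup A, (∀ x ∈ U, ∀ y ∈ U, x * y = 0) → Nat.card U ≤ a) :
    Nat.card ((⊤ : AddSubgroup A).map (Lm z)) ≤ a ^ 5 := by
  set N₀ := (⊤ : AddSubgroup A).map (Lm z) with hN₀
  set N := N₀.map (Rm z) with hN
  have hmemN : ∀ y, y ∈ N → ∃ x : A, y = z * x * z := by
    rintro y ⟨y', ⟨x, -, rfl⟩, rfl⟩
    exact ⟨x, rfl⟩
  have hNmem : ∀ x : A, z * x * z ∈ N := fun x => ⟨z * x, ⟨x, trivial, rfl⟩, rfl⟩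
  have hNL : ∀ x ∈ N, Lm z x ∈ N := by
    intro y hy
    obtain ⟨x, rfl⟩ := hmemN y hy
    have := hNmem (z * x)
    simpa [mul_assoc] using this
  have hNR : ∀ x ∈ N, Rm z x ∈ N := by
    intro y hy
    obtain ⟨x, rfl⟩ := hmemN y hy
    have := hNmem (x * z)
    simpa [mul_assoc] using this
  set Y := tower (Lm z) N with hY
  have hYN : Y ≤ N := tower_le hNL
  have hYR : ∀ x ∈ Y, Rm z x ∈ Y := by
    intro y hy
    have h1 : Y ≤ Y.comap (Rm z) := by
      rw [hY]
      refine (AddSubgroup.closure_le _).2 ?_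
      rintro y ⟨q, m, hm, rfl, hy⟩
      refine AddSubgroup.subset_closure ⟨q, Rm z m, hNR m hm, ?_, ?_⟩
      · exact iter_mul z q m z
      · have := iter_mul z (q + 1) ((Lm z)^[q] m) z
        rw [hy, zero_mul] at this
        exact this
    exact h1 hy
  set U := tower (Rm z) Y with hU
  have hUY : U ≤ Y := tower_le hYR
  have hUU : ∀ u ∈ U, ∀ v ∈ U, u * v = 0 := by
    intro u hu v hv
    have h1 : U ≤ (Rm v).ker := by
      rw [hU]
      refine (AddSubgroup.closure_le _).2 ?_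
      rintro u ⟨q, y, hy, rfl, huz⟩
      obtain ⟨x', hx'⟩ := hmemN y (hYN hy)
      have hu' : (Rm z)^[q] y = (Rm z)^[q + 1] (z * x') := by
        rw [Function.iterate_succ_apply, hx']; rfl
      have h2 : Y ≤ (Lm ((Rm z)^[q] y)).ker := by
        rw [hY]
        refine (AddSubgroup.closure_le _).2 ?_
        rintro v ⟨p, m, hm, rfl, hvz⟩
        obtain ⟨x, hx⟩ := hmemN m hm
        have hv' : (Lm z)^[p] m = (Lm z)^[p + 1] (x * z) := by
          rw [Function.iterate_succ_apply, hx, mul_assoc]; rfl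
        change (Rm z)^[q] y * (Lm z)^[p] m = 0
        rcases le_or_gt q p with hqp | hpq
        · obtain ⟨d, rfl⟩ := Nat.exists_eq_add_of_le hqp
          have e1 : (Lm z)^[q + d] m = (Lm z)^[q + 1] ((Lm z)^[d] (x * z)) := by
            have e2 : q + d + 1 = q + 1 + d := by omega
            rw [hv', e2, Function.iterate_add_apply]
          rw [e1, mul_iter, huz, zero_mul]
        · obtain ⟨d, rfl⟩ := Nat.exists_eq_add_of_lt hpq
          have e1 : (Rm z)^[p + d + 1] y = (Rm z)^[p + 1] ((Rm z)^[d + 1] (z * x')) := by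
            have e2 : p + d + 1 + 1 = p + 1 + (d + 1) := by omega
            rw [hu', e2, Function.iterate_add_apply]
          rw [e1, ← mul_iter, hvz, mul_zero]
      exact h2 (hUY hv)
    exact h1 hu
  have c1 : Nat.card N ≤ Nat.card Y ^ 2 :=
    card_le_tower (Lm z) k N hNL (fun x _ => hL x)
  have c2 : Nat.card Y ≤ Nat.card U ^ 2 :=
    card_le_tower (Rm z) k Y hYR (fun x _ => hR x)
  have c3 : Nat.card U ≤ a := ha U hUU
  have c4 : Nat.card (N₀ ⊓ (Rm z).ker : AddSubgroup A) ≤ a := by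
    refine ha _ ?_
    rintro u ⟨-, hu⟩ v ⟨⟨x, -, rfl⟩, -⟩
    have hu' : u * z = 0 := hu
    change u * (z * x) = 0
    rw [← mul_assoc, hu', zero_mul]
  have c5 := card_split (Rm z) N₀
  calc Nat.card N₀ = Nat.card (N₀ ⊓ (Rm z).ker : AddSubgroup A) * Nat.card N := c5
    _ ≤ a * ((a ^ 2) ^ 2) := by
      refine Nat.mul_le_mul c4 (c1.trans ?_)
      exact Nat.pow_le_pow_left (c2.trans (Nat.pow_le_pow_left c3 2)) 2
    _ = a ^ 5 := by ring

/-- Step 4: the greedy argument. -/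
theorem greedy (S : ℕ) : ∀ E F : AddSubgroup A,
    (∀ z : A, Nat.card (E.map (Lm z) ⊔ F : AddSubgroup A) ≤ S * Nat.card F) →
    ∃ E' F' : AddSubgroup A, E' ≤ E ∧ F ≤ F' ∧ (∀ z : A, E'.map (Lm z) ≤ F') ∧
      Nat.card E ≤ S ^ 2 * Nat.card E' ∧ Nat.card F' ≤ S ^ 2 * Nat.card F := by
  induction S using Nat.strong_induction_on with
  | _ S ih =>
  intro E F h
  obtain ⟨z, hz⟩ := Finite.exists_max
    (fun z : A => Nat.card (E.map (Lm z) ⊔ F : AddSubgroup A))
  have hF0 : 0 < Nat.card F := Nat.card_pos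
  set X := E.map (Lm z) ⊔ F with hXdef
  have hFX : F ≤ X := le_sup_right
  obtain ⟨S₀, hS₀⟩ : Nat.card F ∣ Nat.card X := AddSubgroup.card_dvd_of_le hFX
  rw [mul_comm] at hS₀
  have hX0 : 0 < Nat.card X := Nat.card_pos
  have hS₀pos : 0 < S₀ := by
    rcases Nat.eq_zero_or_pos S₀ with h0 | h0
    · rw [h0, zero_mul] at hS₀; omega
    · exact h0
  have hS₀S : S₀ ≤ S := by
    have := h z
    rw [← hXdef, hS₀] at this
    exact Nat.le_of_mul_le_mul_right this hF0
  rcases Nat.lt_or_ge 1 S₀ with h1 | h1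
  · set E₁ := E ⊓ F.comap (Lm z) with hE₁
    have hcardE : Nat.card E = S₀ * Nat.card E₁ := by
      have k1 : Nat.card E₁ * E₁.relIndex E = Nat.card E := by
        rw [← AddSubgroup.relIndex_bot_left, ← AddSubgroup.relIndex_bot_left E]
        exact AddSubgroup.relIndex_mul_relIndex _ _ _ bot_le inf_le_left
      have k2 : E₁.relIndex E = F.relIndex X := by
        rw [hE₁, AddSubgroup.inf_relIndex_left, AddSubgroup.relIndex_comap, hXdef,
          AddSubgroup.relIndex_sup_right]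
      have k3 : Nat.card F * F.relIndex X = Nat.card X := by
        rw [← AddSubgroup.relIndex_bot_left, ← AddSubgroup.relIndex_bot_left X]
        exact AddSubgroup.relIndex_mul_relIndex _ _ _ bot_le hFX
      have k4 : F.relIndex X = S₀ := by
        rw [hS₀, mul_comm] at k3
        exact Nat.eq_of_mul_eq_mul_right hF0 k3
      rw [← k1, k2, k4, mul_comm]
    have hsq : Nat.sqrt S₀ < S := lt_of_lt_of_le (Nat.sqrt_lt_self h1) hS₀S
    have hnext : ∀ w : A, Nat.card (E₁.map (Lm w) ⊔ X : AddSubgroup A) ≤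
        Nat.sqrt S₀ * Nat.card X := by
      intro w
      have e := exchange (Lm z) (Lm w) E F S₀ hS₀ (hz w) (by
        have e1 : Lm z + Lm w = Lm (z + w) := by
          ext x
          simp [add_mul]
        rw [e1]
        exact hz (z + w))
      rw [← hE₁, ← hXdef] at e
      obtain ⟨t, ht⟩ : Nat.card X ∣ Nat.card (E₁.map (Lm w) ⊔ X : AddSubgroup A) :=
        AddSubgroup.card_dvd_of_le le_sup_right
      rw [ht] at e ⊢
      have e2 : t * t ≤ S₀ := by
        have e3 : t * t * Nat.card X ^ 2 ≤ S₀ * Nat.card X ^ 2 := by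
          calc t * t * Nat.card X ^ 2 = (Nat.card X * t) ^ 2 := by ring
            _ ≤ _ := e
        exact Nat.le_of_mul_le_mul_right e3 (pow_pos hX0 2)
      rw [mul_comm]
      exact Nat.mul_le_mul_right _ (Nat.le_sqrt.2 e2)
    obtain ⟨E', F', hE', hF', hmap, c1, c2⟩ := ih (Nat.sqrt S₀) hsq E₁ X hnext
    have hs2 : Nat.sqrt S₀ ^ 2 ≤ S₀ := Nat.sqrt_le' S₀
    refine ⟨E', F', hE'.trans inf_le_left, hFX.trans hF', hmap, ?_, ?_⟩
    · calc Nat.card E = S₀ * Nat.card E₁ := hcardE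
        _ ≤ S * (S * Nat.card E') := by
          refine Nat.mul_le_mul hS₀S (c1.trans ?_)
          exact Nat.mul_le_mul_right _ (hs2.trans hS₀S)
        _ = S ^ 2 * Nat.card E' := by ring
    · calc Nat.card F' ≤ Nat.sqrt S₀ ^ 2 * Nat.card X := c2
        _ ≤ S * (S * Nat.card F) := by
          refine Nat.mul_le_mul (hs2.trans hS₀S) ?_
          rw [hS₀]
          exact Nat.mul_le_mul_right _ hS₀S
        _ = S ^ 2 * Nat.card F := by ring
  · have hS₀1 : S₀ = 1 := by omega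
    rw [hS₀1, one_mul] at hS₀
    have hone : 1 ≤ S ^ 2 := Nat.one_le_pow _ _ (by omega)
    refine ⟨E, F, le_rfl, le_rfl, ?_, Nat.le_mul_of_pos_left _ hone,
      Nat.le_mul_of_pos_left _ hone⟩
    intro w
    have e1 : Nat.card (E.map (Lm w) ⊔ F : AddSubgroup A) ≤ Nat.card F := (hz w).trans hS₀.le
    have e2 : F = E.map (Lm w) ⊔ F :=
      AddSubgroup.eq_of_le_of_card_ge le_sup_right e1
    rw [e2]
    exact le_sup_left

/-- The main ring-theoretic statement, in terms of a bound `a` for all sections `E / F` with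
`E E ⊆ F`. -/
theorem card_le_pow (hnil : ∀ z : A, ∃ k, (∀ x, (Lm z)^[k] x = 0) ∧ ∀ x, (Rm z)^[k] x = 0)
    (a : ℕ) (ha : ∀ E F : AddSubgroup A, F ≤ E → (∀ x ∈ E, ∀ y ∈ E, x * y ∈ F) →
      Nat.card E ≤ a * Nat.card F) :
    Nat.card A ≤ a ^ 21 := by
  have hsq : ∀ U : AddSubgroup A, (∀ x ∈ U, ∀ y ∈ U, x * y = 0) → Nat.card U ≤ a := by
    intro U hU
    have := ha U ⊥ bot_le (fun x hx y hy => by rw [hU x hx y hy]; exact zero_mem _)
    simpa using this
  have h5 : ∀ z : A, Nat.card ((⊤ : AddSubgroup A).map (Lm z) ⊔ ⊥ : AddSubgroup A) ≤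
      a ^ 5 * Nat.card (⊥ : AddSubgroup A) := by
    intro z
    obtain ⟨k, hL, hR⟩ := hnil z
    have := card_image_le z k hL hR a hsq
    simpa using this
  obtain ⟨E, F, -, -, hEF, c1, c2⟩ := greedy (a ^ 5) ⊤ ⊥ h5
  -- the left ideal `E₁ = {x | A x ≤ F}`
  let E₁ : AddSubgroup A :=
    { carrier := {x | ∀ j : A, j * x ∈ F}
      zero_mem' := fun j => by rw [mul_zero]; exact zero_mem _
      add_mem' := fun {x y} hx hy j => by rw [mul_add]; exact F.add_mem (hx j) (hy j)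
      neg_mem' := fun {x} hx j => by rw [mul_neg]; exact F.neg_mem (hx j) }
  have hE₁ : ∀ x, x ∈ E₁ ↔ ∀ j : A, j * x ∈ F := fun x => Iff.rfl
  have hEE₁ : E ≤ E₁ := fun x hx => (hE₁ x).2 (fun j => hEF j ⟨x, hx, rfl⟩)
  let F₁ : AddSubgroup A := AddSubgroup.closure {y | ∃ j x, x ∈ E₁ ∧ j * x = y}
  have hF₁F : F₁ ≤ F := by
    refine (AddSubgroup.closure_le _).2 ?_
    rintro y ⟨j, x, hx, rfl⟩
    exact (hE₁ x).1 hx j
  have hF₁E₁ : F₁ ≤ E₁ := by
    refine (AddSubgroup.closure_le _).2 ?_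
    rintro y ⟨j, x, hx, rfl⟩
    refine (hE₁ _).2 (fun i => ?_)
    rw [← mul_assoc]
    exact (hE₁ x).1 hx _
  have hEE : ∀ x ∈ E₁, ∀ y ∈ E₁, x * y ∈ F₁ :=
    fun x _ y hy => AddSubgroup.subset_closure ⟨x, y, hy, rfl⟩
  have c3 := ha E₁ F₁ hF₁E₁ hEE
  have c4 : Nat.card (⊤ : AddSubgroup A) = Nat.card A := AddSubgroup.card_top
  have c5 : Nat.card (⊥ : AddSubgroup A) = 1 := by simp
  rw [c4] at c1
  rw [c5, mul_one] at c2
  calc Nat.card A ≤ (a ^ 5) ^ 2 * Nat.card E := c1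
    _ ≤ (a ^ 5) ^ 2 * (a * (a ^ 5) ^ 2) := by
      refine Nat.mul_le_mul_left _ ((card_le_of_le hEE₁).trans (c3.trans ?_))
      exact Nat.mul_le_mul_left _ ((card_le_of_le hF₁F).trans c2)
    _ = a ^ 21 := by ring

/-- Existence form: a finite nil ring has additive subgroups `F ≤ E` with `E E ⊆ F` and
`|A| ≤ |E / F| ^ 21`. -/
theorem exists_section (hnil : ∀ z : A, ∃ k, (∀ x, (Lm z)^[k] x = 0) ∧ ∀ x, (Rm z)^[k] x = 0) :
    ∃ E F : AddSubgroup A, F ≤ E ∧ (∀ x ∈ E, ∀ y ∈ E, x * y ∈ F) ∧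
      Nat.card A ≤ F.relIndex E ^ 21 := by
  let P := {p : AddSubgroup A × AddSubgroup A // p.2 ≤ p.1 ∧ ∀ x ∈ p.1, ∀ y ∈ p.1, x * y ∈ p.2}
  have : Nonempty P := ⟨⟨(⊥, ⊥), le_rfl, by
    intro x hx y hy
    have hx0 : x = 0 := hx
    rw [hx0, zero_mul]
    exact zero_mem _⟩⟩
  obtain ⟨⟨⟨E, F⟩, hFE, hEE⟩, hmax⟩ := Finite.exists_max
    (fun p : P => p.1.2.relIndex p.1.1)
  refine ⟨E, F, hFE, hEE, ?_⟩
  refine card_le_pow hnil _ ?_
  intro E' F' hFE' hEE'
  have h1 := hmax ⟨⟨E', F'⟩, hFE', hEE'⟩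
  have h2 : Nat.card F' * F'.relIndex E' = Nat.card E' := by
    rw [← AddSubgroup.relIndex_bot_left, ← AddSubgroup.relIndex_bot_left E']
    exact AddSubgroup.relIndex_mul_relIndex _ _ _ bot_le hFE'
  rw [← h2, mul_comm]
  exact Nat.mul_le_mul_right _ h1

end Ring

end Pool.Agent.MP_d12f76_al
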